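import Mathlib
import Pool.Agent.U462.Sh.ZAdm2

set_option autoImplicit false

/-!
# Residues modulo 4 of twin pairs: every assignment to the dyadic intervals is possible
-/

namespace Pool.Agent.Results.MP_74f661_nt.AnyResiduesOfTwins

open Finset Filter
open scoped Topology
open Pool.Agent.U462.Sh.Law

/-- the number of the pairs `t, t + 2` of elements of `S` with `2 ^ j ≤ t < 2 ^ (j + 1)` -/
noncomputable def pairs (S : Set ℕ) (j : ℕ) : ℕ :=
  {t : ℕ | t ∈ S ∧ t + 2 ∈ S ∧ 2 ^ j ≤ t ∧ t < 2 ^ (j + 1)}.ncard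

/-- **Every assignment of residues to the dyadic intervals is possible.** For every set `J` of natural
numbers there is a set `S` of rough numbers `≥ 2` in which all pairs `t, t + 2` with
`2 ^ j ≤ t < 2 ^ (j + 1)` have `t ≡ 1 (mod 4)` if `j` is in `J` and `t ≡ 3 (mod 4)` if not, in which the
number of these pairs tends to infinity with `j`, and for which the uniform Hardy–Littlewood law holds for
all systems of linear forms and all intervals, except for those systems with two forms `l, l + 2` for which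
`l` has in the interval a value `t` in the wrong residue class. -/
theorem result : ∀ J : Set ℕ, ∃ S : Set ℕ, (∀ m ∈ S, 2 ≤ m ∧ Rough m) ∧
    (∀ t ∈ S, t + 2 ∈ S → (Nat.log 2 t ∈ J → t % 4 = 1) ∧ (Nat.log 2 t ∉ J → t % 4 = 3)) ∧
    (∀ K : ℕ, ∃ j₀ : ℕ, ∀ j : ℕ, j₀ ≤ j → K ≤ pairs S j) ∧
    LawOn S (fun L u v => ∀ a b : ℤ, (a, b) ∈ L → (a, b + 2) ∈ L → ∀ m : ℕ, u ≤ m → m < v →
      ¬ (Nat.log 2 (value (a, b) m) ∈ J ∧ value (a, b) m % 4 = 3) ∧
      ¬ (Nat.log 2 (value (a, b) m) ∉ J ∧ value (a, b) m % 4 = 1)) := by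
  classical
  intro J
  obtain ⟨S, h1, h2, h3⟩ := Pool.Agent.U462.Sh.shiftOn {0, 2} (by simp)
    {t | (Nat.log 2 t ∈ J ∧ t % 4 = 3) ∨ (Nat.log 2 t ∉ J ∧ t % 4 = 1)}
  have hlaw : LawOn S (fun L u v => ∀ a b : ℤ, (a, b) ∈ L → (a, b + 2) ∈ L → ∀ m : ℕ, u ≤ m → m < v →
      ¬ (Nat.log 2 (value (a, b) m) ∈ J ∧ value (a, b) m % 4 = 3) ∧
      ¬ (Nat.log 2 (value (a, b) m) ∉ J ∧ value (a, b) m % 4 = 1)) := by
    refine Pool.Agent.U462.Sh.on_mono ?_ h3
    rintro L u v hL a b hab m hm1 hm2 h4
    have h5 := hL a b (by simpa using hab 0 (by simp)) (by simpa using hab 2 (by simp)) m hm1 hm2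
    rcases h4 with h4 | h4
    · exact h5.1 h4
    · exact h5.2 h4
  have hfin : ∀ j, {t : ℕ | t ∈ S ∧ t + 2 ∈ S ∧ 2 ^ j ≤ t ∧ t < 2 ^ (j + 1)}.Finite := fun j =>
    (Set.finite_Iio (2 ^ (j + 1))).subset (fun t ht => ht.2.2.2)
  have hodd : ∀ m ∈ S, m % 2 = 1 := by
    intro m hm
    by_contra hcon
    apply (h1 m hm).2 2 Nat.prime_two _ (by omega)
    calc 2 ≤ 2 ^ 2 ^ 0 := by norm_num
      _ ≤ _ := Nat.pow_le_pow_right (by norm_num) (Nat.pow_le_pow_right (by norm_num) (by omega))
  refine ⟨S, h1, ?_, ?_, hlaw⟩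
  · intro t ht ht2
    have hnT : ¬ ((Nat.log 2 t ∈ J ∧ t % 4 = 3) ∨ (Nat.log 2 t ∉ J ∧ t % 4 = 1)) := by
      intro h4
      apply h2 t h4
      intro d hd
      simp only [mem_insert, mem_singleton] at hd
      rcases hd with rfl | rfl
      exacts [ht, ht2]
    have h5 := hodd t ht
    constructor
    · intro h6
      have h7 : t % 4 ≠ 3 := fun h => hnT (Or.inl ⟨h6, h⟩)
      omega
    · intro h6
      have h7 : t % 4 ≠ 1 := fun h => hnT (Or.inr ⟨h6, h⟩)
      omega
  · intro K
    obtain ⟨X1, hX1⟩ := Pool.Agent.U462.Sh.many hlaw {(4, 1), (4, 3)} Pool.Agent.U462.Sh.four1_sys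
      Pool.Agent.U462.Sh.four1_adm (1 / 2) (by norm_num) K
    obtain ⟨X2, hX2⟩ := Pool.Agent.U462.Sh.many hlaw {(4, 3), (4, 5)} Pool.Agent.U462.Sh.four3_sys
      Pool.Agent.U462.Sh.four3_adm (1 / 2) (by norm_num) K
    refine ⟨X1 + X2 + 10, ?_⟩
    intro j hj
    obtain ⟨i, rfl⟩ : ∃ i, j = i + 2 := ⟨j - 2, by omega⟩
    have hpow : X1 + X2 + 8 ≤ 2 ^ i := (by omega : X1 + X2 + 8 ≤ i).trans (Nat.lt_two_pow_self).le
    have e1 : 2 ^ (i + 2) = 4 * 2 ^ i := by ring
    have e2 : 2 ^ (i + 2 + 1) = 8 * 2 ^ i := by ring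
    have hrp : ((2 * 2 ^ i : ℕ) : ℝ) ^ (1 / 2 : ℝ) ≤ ((2 * 2 ^ i : ℕ) : ℝ) - ((2 ^ i : ℕ) : ℝ) := by
      rw [← Real.sqrt_eq_rpow]
      apply Real.sqrt_le_iff.2
      have hiR : (8 : ℝ) ≤ 2 ^ i := by exact_mod_cast (by omega : 8 ≤ 2 ^ i)
      push_cast
      constructor
      · linarith
      · nlinarith
    have hlog : ∀ t : ℕ, 2 ^ (i + 2) ≤ t → t < 2 ^ (i + 2 + 1) → Nat.log 2 t = i + 2 := fun t ht1 ht2 =>
      Nat.log_eq_of_pow_le_of_lt_pow ht1 ht2
    by_cases hJ : i + 2 ∈ J
    · refine (hX1 (2 * 2 ^ i) (by omega) (2 ^ i) (2 * 2 ^ i) (by omega) le_rfl hrp ?_ ?_).trans ?_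
      · intro m hm1 hm2 l hl
        simp only [mem_insert, mem_singleton] at hl
        have : (8 : ℤ) ≤ m := by exact_mod_cast (by omega : 8 ≤ m)
        rcases hl with rfl | rfl
        · simp only; linarith
        · simp only; linarith
      · intro a b ha hb m hm1 hm2
        simp only [mem_insert, mem_singleton, Prod.mk.injEq] at ha hb
        have hab : a = 4 ∧ b = 1 := by omega
        obtain ⟨rfl, rfl⟩ := hab
        have e5 : value (4, 1) m = 4 * m + 1 := by
          unfold value
          omega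
        rw [e5, hlog (4 * m + 1) (by omega) (by omega)]
        refine ⟨fun h => ?_, fun h => h.1 hJ⟩
        have := h.2
        omega
      · unfold count pairs
        apply Set.ncard_le_ncard_of_injOn (fun m => 4 * m + 1) _ _ (hfin _)
        · rintro m ⟨hm1, hm2, hall⟩
          have h4 := hall (4, 1) (by simp)
          have h5 := hall (4, 3) (by simp)
          have e5 : value (4, 1) m = 4 * m + 1 := by
            unfold value
            omega
          have e6 : value (4, 3) m = 4 * m + 3 := by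
            unfold value
            omega
          rw [e5] at h4
          rw [e6] at h5
          exact ⟨h4, h5, by omega, by omega⟩
        · intro m _ m' _ h
          simp only at h
          omega
    · refine (hX2 (2 * 2 ^ i) (by omega) (2 ^ i) (2 * 2 ^ i) (by omega) le_rfl hrp ?_ ?_).trans ?_
      · intro m hm1 hm2 l hl
        simp only [mem_insert, mem_singleton] at hl
        have : (8 : ℤ) ≤ m := by exact_mod_cast (by omega : 8 ≤ m)
        rcases hl with rfl | rfl
        · simp only; linarith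
        · simp only; linarith
      · intro a b ha hb m hm1 hm2
        simp only [mem_insert, mem_singleton, Prod.mk.injEq] at ha hb
        have hab : a = 4 ∧ b = 3 := by omega
        obtain ⟨rfl, rfl⟩ := hab
        have e5 : value (4, 3) m = 4 * m + 3 := by
          unfold value
          omega
        rw [e5, hlog (4 * m + 3) (by omega) (by omega)]
        refine ⟨fun h => hJ h.1, fun h => ?_⟩
        have := h.2
        omega
      · unfold count pairs
        apply Set.ncard_le_ncard_of_injOn (fun m => 4 * m + 3) _ _ (hfin _)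
        · rintro m ⟨hm1, hm2, hall⟩
          have h4 := hall (4, 3) (by simp)
          have h5 := hall (4, 5) (by simp)
          have e5 : value (4, 3) m = 4 * m + 3 := by
            unfold value
            omega
          have e6 : value (4, 5) m = 4 * m + 5 := by
            unfold value
            omega
          rw [e5] at h4
          rw [e6] at h5
          exact ⟨h4, h5, by omega, by omega⟩
        · intro m _ m' _ h
          simp only at h
          omega

end Pool.Agent.Results.MP_74f661_nt.AnyResiduesOfTwins
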