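import Mathlib
import Pool.Agent.U364.ST.Cls
import Pool.Agent.R498.MP.Tup
import Pool.Agent.U364.ST.Adm

/-!
# Strings of consecutive candidates for twin primes, all almost prime twins and all in one residue class modulo 4

The first members `p > 3` of the twin prime pairs are primes `≡ 5` modulo `6`; these primes are the candidates. Call a prime `p`
good (parameters `r`, `w`) if `p + 2` has at most `r` prime factors, all of them at least `w = N ^ δ`. The question is about the
residues modulo `4` of consecutive twin primes.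

For every `m` there are `C`, `r` and `δ > 0` such that for EVERY modulus `M ≥ 1`, every finite set `T` of at least `C` nonnegative
integers and every length `l` the following holds for all large `N`: at least `1 / C` of all the `m`-element subsets `H` of `T`
are such that there is an arithmetic progression of `l` terms `x` in `(N, 2 N]` with difference at most `(log N) ^ B` such that
for every term `x` the primes `≡ 5` modulo `6` in `[x, x + 6 M max H]` are exactly the numbers `x + 6 M h`, `h ∈ H`, and all these
primes are good. So these `m` CONSECUTIVE candidates, all of them almost prime twins, are all in the same residue class modulo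
`M` (`M = 2`: modulo `12`, hence modulo `4`); `C`, `r` and `δ` do not depend on `M`. In place of `6` and `5` one can take any
squarefree multiple `q` of `6` and any `c` with `c (c + 2)` coprime to `q`.

Proof: the theorem on primes with almost prime companions (starting files, `Pool.Agent.R498.MP.stringsC`), for shifts which are
multiples of `q M`, and the passage to a positive proportion of the patterns (starting files, `Pool.Agent.Helper32K9.Str`).
-/

set_option autoImplicit false

namespace Pool.Agent.Results.MP_74f661_nt.EqualResidueStrings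

open Filter Polynomial

/-- `p + 2` has at most `r` prime factors, counted with multiplicity, all of them at least `w`. -/
def Good (r : ℕ) (w : ℝ) (p : ℕ) : Prop :=
  (p + 2).primeFactorsList.length ≤ r ∧ ∀ q : ℕ, q.Prime → q ∣ p + 2 → w ≤ q

/-- There is an arithmetic progression of `l` terms `x`, with difference between `1` and `(log N) ^ B`, such that for all its
terms `x`: `N < x`, `x + q M max H ≤ 2 N`, the primes among the numbers `x + q y`, `y ≤ M max H` (all the numbers `≡ c` modulo
`q` of the interval `[x, x + q M max H]`) are exactly the numbers `x + q M s`, `s ∈ H`, and they are all good with the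
parameters `r`, `N ^ δ`. -/
def Occurs (M q c r : ℕ) (δ : ℝ) (l B N : ℕ) (H : Finset ℕ) : Prop :=
  ∃ n d : ℕ, 1 ≤ d ∧ (d : ℝ) ≤ Real.log N ^ B ∧ ∀ j < l, N < n + j * d ∧ n + j * d + q * (M * H.sup id) ≤ 2 * N ∧
    (∀ y ≤ M * H.sup id, (n + j * d + q * y).Prime ↔ ∃ s ∈ H, y = M * s) ∧
    ∀ s ∈ H, n + j * d + q * (M * s) ≡ c [MOD q] ∧ n + j * d + q * (M * s) ≡ n + j * d [MOD q * M] ∧
      Good r ((N : ℝ) ^ δ) (n + j * d + q * (M * s))

/-- the form -/
noncomputable def F : ℤ[X] := X + 2

theorem F_eval (n : ℤ) : F.eval n = n + 2 := by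
  unfold F
  simp

/-- **Strings of consecutive candidates in one residue class modulo `M` with almost prime `p + 2`.** -/
theorem result :
    (∀ q c : ℕ, Squarefree q → 6 ∣ q → Nat.Coprime (c * (c + 2)) q → ∀ m : ℕ, 1 ≤ m →
      ∃ (C r : ℕ) (δ : ℝ), 0 < C ∧ 0 < δ ∧ ∀ M : ℕ, 1 ≤ M → ∀ T : Finset ℕ, C ≤ T.card → ∀ l : ℕ,
        ∃ B : ℕ, ∀ᶠ N : ℕ in atTop,
          T.card.choose m ≤ C * {H : Finset ℕ | H ⊆ T ∧ H.card = m ∧ Occurs M q c r δ l B N H}.ncard) ∧
    Squarefree 6 ∧ Nat.Coprime (5 * (5 + 2)) 6 ∧
    ∀ p : ℕ, 3 < p → p.Prime → (p + 2).Prime → p % 6 = 5 := by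
  classical
  refine ⟨fun q c hq h6 hc m hm => ?_, ?_, by norm_num, ?_⟩
  · obtain ⟨C, r, δ, hC, hδ, hmain⟩ := Pool.Agent.U364.ST.cls_prop F (by
      intro h
      have h1 := F_eval 0
      rw [h] at h1
      norm_num at h1) (by
      intro p hp
      obtain ⟨n, hn⟩ := Pool.Agent.U364.ST.adm_two (fun n => n * F.eval n) 5 (-1) (by
        rw [F_eval, F_eval, Int.isCoprime_iff_gcd_eq_one]
        norm_num) p hp
      exact ⟨n, hn⟩) q c hq (by
      intro p hp hpq hd
      rw [F_eval] at hd
      have h1 : p ∣ c * (c + 2) := by exact_mod_cast hd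
      have h2 := Nat.dvd_gcd h1 hpq
      rw [hc] at h2
      exact hp.one_lt.ne' (Nat.dvd_one.1 h2)) (by
      intro z hz0 hqz h0
      rw [F_eval] at h0
      have h1 : (6 : ℤ) ∣ z := by
        refine dvd_trans ?_ hqz
        exact_mod_cast h6
      omega) m hm Good 0 (by
      intro r w p hp _ _ hAP
      rw [F_eval] at hAP
      exact Pool.Agent.R498.MP.AP_nat r w (p + 2) (by exact_mod_cast hAP))
    refine ⟨C, r, δ, hC, hδ, fun M hM T hT l => ?_⟩
    have hinj : Function.Injective (fun t : ℕ => M * t) := fun x y h => Nat.eq_of_mul_eq_mul_left hM h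
    have hcard : ∀ S : Finset ℕ, (S.image (fun t => M * t)).card = S.card := fun S =>
      Finset.card_image_of_injective _ hinj
    obtain ⟨B, hB⟩ := hmain (T.image (fun t => M * t)) (by rw [hcard]; exact hT) l
    refine ⟨B, ?_⟩
    filter_upwards [hB] with N hN
    rw [hcard] at hN
    refine hN.trans (Nat.mul_le_mul_left _ ?_)
    have hfin : {H : Finset ℕ | H ⊆ T ∧ H.card = m ∧ Occurs M q c r δ l B N H}.Finite := by
      apply (T.powersetCard m).finite_toSet.subset
      rintro H ⟨h1, h2, -⟩
      exact Finset.mem_coe.2 (Finset.mem_powersetCard.2 ⟨h1, h2⟩)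
    refine (Set.ncard_le_ncard ?_ (hfin.image (fun H : Finset ℕ => H.image (fun t => M * t)))).trans
      (Set.ncard_image_le hfin)
    rintro H' ⟨hH', hcard', n, d, h1, h2, h3⟩
    obtain ⟨H, hHT, rfl⟩ := Finset.subset_image_iff.1 hH'
    have hHT' : H ⊆ T := by exact_mod_cast hHT
    rw [hcard] at hcard'
    refine ⟨H, ⟨hHT', hcard', n, d, h1, h2, fun j hj => ?_⟩, rfl⟩
    obtain ⟨g1, g2, g3, g4⟩ := h3 j hj
    rw [Pool.Agent.U364.ST.sup_mul] at g2 g3
    refine ⟨g1, g2, fun y hy => ?_, fun s hs => ?_⟩
    · rw [g3 y hy, Finset.mem_image]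
      constructor
      · rintro ⟨s, hs, rfl⟩
        exact ⟨s, hs, rfl⟩
      · rintro ⟨s, hs, rfl⟩
        exact ⟨s, hs, rfl⟩
    · obtain ⟨g5, g6⟩ := g4 (M * s) (Finset.mem_image_of_mem (fun t => M * t) hs)
      refine ⟨g5, ?_, g6⟩
      have h7 : q * (M * s) = q * M * s := by ring
      rw [h7]
      unfold Nat.ModEq
      rw [Nat.add_mul_mod_self_left]
  · have h2 : Squarefree 2 := Nat.prime_two.prime.squarefree
    have h3 : Squarefree 3 := Nat.prime_three.prime.squarefree
    have h6 : Squarefree (2 * 3) := (Nat.squarefree_mul (by norm_num)).2 ⟨h2, h3⟩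
    exact h6
  · intro p hp3 h0 h2
    have key : ∀ d : ℕ, d.Prime → ∀ m : ℕ, m.Prime → 3 < m → d ≤ 3 → m % d ≠ 0 := by
      intro d hd m hm hm5 hp5 h
      have h1 := (Nat.prime_dvd_prime_iff_eq hd hm).1 (Nat.dvd_of_mod_eq_zero h)
      omega
    have a2 := key 2 Nat.prime_two p h0 hp3 (by norm_num)
    have a3 := key 3 Nat.prime_three p h0 hp3 (by norm_num)
    have b3 := key 3 Nat.prime_three (p + 2) h2 (by omega) (by norm_num)
    have e3 : p % 3 = 2 := by
      clear a2
      omega
    have e2 : p % 2 = 1 := by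
      clear a3 b3 e3
      omega
    clear a2 a3 b3
    omega

end Pool.Agent.Results.MP_74f661_nt.EqualResidueStrings
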