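import Pool.Agent.U455.GVV

/-!
# Vectors of consecutive gaps of dense sets of sifted twins

Let `F` be a finite set of shifts which does not cover all classes modulo any prime, for instance `{0, 2}`, and `l = |F|`.
`Sifted F y a H` is the set of the `n ∈ (a, a + H]` for which no `n + f`, `f ∈ F`, is divisible by a prime `p ≤ y`. For a
small `η` EVERY interval `(a, a + H]` with large `H` contains at least `c H / (log H)ˡ` of them with `y = H ^ η`. For every
`k ≥ 1`, `η, δ > 0` and EVERY subset `Q` with at least `δ H / (log H)ˡ` elements, in EVERY interval of large length `H`: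

* a positive proportion of all vectors `g ∈ [1, K (log H)ˡ] ^ k` are the vectors of the `k` CONSECUTIVE gaps
  `(q₁ - q₀, ..., q_k - q_{k-1})` of at least `κ H / (log H) ^ ((k + 1) l)` runs `q₀ < q₁ < ... < q_k` of consecutive
  elements of `Q` (the right order of magnitude);
* EVERY vector `t` of the lattice `(M ℤ) ^ k` is a signed sum of at most `h (1 + ∑ |t i| / (log H)ˡ)` such vectors (the
  smallest possible order of the number of the summands).

Proof: few gaps are long or bounded, so most elements start a run; the upper bound sieve for the `(k + 1) l` numbers of a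
run and the second moment of its singular series over all gap vectors (`Pool.Agent.U455.GVV.mom`) give the positive
proportion (`Pool.Agent.U455.GVV.pop`); on a dense line in a coordinate direction a local form of Schnirelmann's theorem
with a fixed number of summands (`Pool.Agent.U455.VEC.local_exact`) gives all multiples of some `d` in this direction
(`Pool.Agent.U455.GVV.lattice`).
-/

set_option autoImplicit false

namespace Pool.Agent.Results.MP_74f661_nt.GapVectors

open Filter Finset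

/-- for every prime `p` there is an `r` with no `r + f`, `f ∈ F`, divisible by `p` -/
def Admissible (F : Finset ℕ) : Prop := ∀ p : ℕ, p.Prime → ∃ r : ℕ, ∀ f ∈ F, ¬ p ∣ r + f

open Classical in
/-- the `n ∈ (a, a + H]` for which no `n + f`, `f ∈ F`, is divisible by a prime `p ≤ y` -/
noncomputable def Sifted (F : Finset ℕ) (y : ℝ) (a H : ℕ) : Finset ℕ :=
  (Ioc a (a + H)).filter (fun n => ∀ f ∈ F, ∀ p : ℕ, p.Prime → (p : ℝ) ≤ y → ¬ p ∣ n + f)

/-- the sum of the `g j`, `j < i` -/
def before {k : ℕ} (g : Fin k → ℕ) (i : Fin k) : ℕ := ∑ j : Fin k, if j < i then g j else 0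

open Classical in
/-- the number of the elements `q` of `Q` for which `q`, `q + g 0`, `q + g 0 + g 1`, ..., `q + g 0 + ... + g (k - 1)` are
`k + 1` consecutive elements of `Q` -/
noncomputable def runCount {k : ℕ} (Q : Finset ℕ) (g : Fin k → ℕ) : ℕ :=
  (Q.filter (fun q => ∀ i, q + before g i + g i ∈ Q ∧ ∀ r ∈ Q, q + before g i < r → q + before g i + g i ≤ r)).card

theorem result :
    Admissible {0, 2} ∧ ∀ F : Finset ℕ, F.Nonempty → Admissible F →
    (∃ η c : ℝ, 0 < η ∧ 0 < c ∧ ∃ H₀ : ℕ, ∀ a H : ℕ, H₀ ≤ H →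
      c * (H / Real.log H ^ F.card) ≤ (Sifted F ((H : ℝ) ^ η) a H).card) ∧
    ∀ k : ℕ, 1 ≤ k → ∀ η δ : ℝ, 0 < η → 0 < δ → ∃ h M : ℕ, 1 ≤ M ∧ ∃ κ ρ K : ℝ, 0 < κ ∧ 0 < ρ ∧ 0 < K ∧ ∃ H₀ : ℕ,
      ∀ a H : ℕ, H₀ ≤ H → ∀ Q : Finset ℕ, Q ⊆ Sifted F ((H : ℝ) ^ η) a H →
        δ * (H / Real.log H ^ F.card) ≤ Q.card →
        (∃ G : Finset (Fin k → ℕ), ρ * (Real.log H ^ F.card) ^ k ≤ (G.card : ℝ) ∧
          ∀ g ∈ G, (∀ i, 1 ≤ g i ∧ (g i : ℝ) ≤ K * Real.log H ^ F.card) ∧
            κ * (H / Real.log H ^ ((k + 1) * F.card)) ≤ runCount Q g) ∧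
        ∀ t : Fin k → ℤ, (∀ i, (M : ℤ) ∣ t i) → ∃ l l' : List (Fin k → ℕ),
          ((l.length + l'.length : ℕ) : ℝ) * Real.log H ^ F.card ≤
            h * (Real.log H ^ F.card + ∑ i, |(t i : ℝ)|) ∧
          (∀ g ∈ l ++ l', (∀ i, 1 ≤ g i ∧ (g i : ℝ) ≤ K * Real.log H ^ F.card) ∧
            κ * (H / Real.log H ^ ((k + 1) * F.card)) ≤ runCount Q g) ∧
          ∀ i, t i = (l.map (fun g => (g i : ℤ))).sum - (l'.map (fun g => (g i : ℤ))).sum := by
  classical
  refine ⟨?_, fun F hF hA => ⟨?_, ?_⟩⟩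
  · intro p hp
    by_cases h3 : p = 3
    · subst h3
      exact ⟨2, by decide⟩
    · refine ⟨1, fun f hf => ?_⟩
      rw [mem_insert, mem_singleton] at hf
      rcases hf with rfl | rfl
      · intro hd
        have := Nat.le_of_dvd (by omega) hd
        have := hp.two_le
        omega
      · intro hd
        exact h3 ((Nat.prime_dvd_prime_iff_eq hp Nat.prime_three).1 hd)
  · obtain ⟨η, c, hη, hc, H₀, h⟩ := Pool.Agent.U455.RTG.low_F F hA
    refine ⟨η, c, hη, hc, H₀, fun a H hH => ?_⟩
    have h1 := h a H hH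
    unfold Pool.Agent.U455.RTG.Rough at h1
    unfold Sifted
    convert h1
  · intro k hk η δ hη hδ
    obtain ⟨h, M, hM, κ, ρ, K, hκ, hρ, hK, H₀, hmain⟩ := Pool.Agent.U455.GVV.main k hk F hF η δ hη hδ
    refine ⟨h, M, hM, κ, ρ, K, hκ, hρ, hK, H₀, fun a H hH Q hQ hQc => ?_⟩
    have hQ' : Q ⊆ Pool.Agent.U455.RTG.Rough F ((H : ℝ) ^ η) a H := by
      intro q hq
      have h1 := hQ hq
      unfold Sifted at h1
      rw [mem_filter] at h1
      rw [Pool.Agent.U455.RTG.mem_Rough]
      exact h1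
    have hbef : ∀ (g : Fin k → ℕ) (i : Fin k), Pool.Agent.R527.LV.ps g i.castSucc = before g i := by
      intro g i
      unfold Pool.Agent.R527.LV.ps before
      rfl
    have hg : ∀ g : Fin k → ℕ, ((Q.filter (Pool.Agent.U455.GVV.CN Q g)).card : ℝ) = runCount Q g := by
      intro g
      unfold runCount Pool.Agent.U455.GVV.CN Pool.Agent.U455.CGW.Nx
      simp only [hbef]
    obtain ⟨h1, h2⟩ := hmain a H hH Q hQ' hQc
    simp only [hg] at h1 h2
    refine ⟨h1, fun t hMt => ?_⟩
    obtain ⟨n, hn, l, l', g1, g2, g3, g4⟩ := h2 t hMt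
    refine ⟨l, l', le_trans ?_ hn, fun g hg' => ?_, g4⟩
    · apply mul_le_mul_of_nonneg_right _ (pow_nonneg (Real.log_natCast_nonneg H) _)
      exact_mod_cast g1
    · rcases List.mem_append.1 hg' with hg' | hg'
      · exact g2 g hg'
      · exact g3 g hg'

end Pool.Agent.Results.MP_74f661_nt.GapVectors
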