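import Mathlib
import Pool.Agent.U736.TW.Final

set_option autoImplicit false

/-!
# Residues mod 4 of consecutive twins in sequential random models of the primes

The problem asks whether, for the actual twin prime pairs, `δ₂(x; 4; a|b) → 1/2` for all classes
`a, b ∈ {1, 3}`.  We prove the corresponding law, together with the exact second order term, in EVERY
sequential random model of the primes: the integers are decided one after the other, only integers
coprime to a fixed multiple `Q` of `6` can be chosen, and the conditional probability of choosing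
`n + 1` given the past is asymptotic to `c / log n`.  No independence is assumed.  The second order
term has the sign of the bias which is observed for the twin primes.
-/

open MeasureTheory Filter
open scoped Topology

namespace Pool.Agent.Results.MP_74f661_nt.SequentialModels

/-- the first members `n` of the pairs `n, n + 2` with both members in `S` -/
def Twins (S : Set ℕ) : Set ℕ := {n | n ∈ S ∧ n + 2 ∈ S}

/-- `m` is the next element of `T` after `n` -/
def IsNext (T : Set ℕ) (n m : ℕ) : Prop := n < m ∧ m ∈ T ∧ ∀ k, n < k → k < m → k ∉ T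

/-- the number of the elements `n ≤ x` of `T` with `n ≡ a (mod 4)` -/
noncomputable def count (T : Set ℕ) (a : ℕ) (x : ℝ) : ℕ := {n : ℕ | n ∈ T ∧ (n : ℝ) ≤ x ∧ n % 4 = a}.ncard

/-- the number of the elements `n ≤ x` of `T` with `n ≡ a (mod 4)` such that the next element of `T` is
congruent to `b (mod 4)` -/
noncomputable def countPair (T : Set ℕ) (a b : ℕ) (x : ℝ) : ℕ :=
  {n : ℕ | n ∈ T ∧ (n : ℝ) ≤ x ∧ n % 4 = a ∧ ∃ m, IsNext T n m ∧ m % 4 = b}.ncard

/-- the proportion of the successors in the class `b` -/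
noncomputable def delta (T : Set ℕ) (a b : ℕ) (x : ℝ) : ℝ := (countPair T a b x : ℝ) / count T a x

open Pool.Agent.U736.TW

lemma delta_floor (T : Set ℕ) (a b : ℕ) {x : ℝ} (hx : 0 ≤ x) :
    delta T a b x = (cntPair T a b ⌊x⌋₊ : ℝ) / cnt T a ⌊x⌋₊ := by
  have h : ∀ n : ℕ, (n : ℝ) ≤ x ↔ n ≤ ⌊x⌋₊ := fun n => (Nat.le_floor_iff hx).symm
  unfold delta count countPair cnt cntPair
  simp only [h]
  rfl

lemma log_ratio : Tendsto (fun x : ℝ => Real.log x / Lg ⌊x⌋₊) atTop (𝓝 1) := by
  have hL : Tendsto (fun x : ℝ => Lg ⌊x⌋₊) atTop atTop := Lg_tendsto.comp tendsto_nat_floor_atTop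
  have h1 : Tendsto (fun x : ℝ => 1 - 3 * (Lg ⌊x⌋₊)⁻¹) atTop (𝓝 (1 - 3 * 0)) :=
    tendsto_const_nhds.sub ((tendsto_inv_atTop_zero.comp hL).const_mul 3)
  rw [mul_zero, sub_zero] at h1
  refine tendsto_of_tendsto_of_tendsto_of_le_of_le' h1 tendsto_const_nhds ?_ ?_
  · filter_upwards [eventually_ge_atTop (1 : ℝ)] with x hx
    have hx0 : 0 < x := by linarith
    have hp := Lg_pos ⌊x⌋₊
    have h2 : Lg ⌊x⌋₊ - Real.log x ≤ 3 := by
      unfold Lg
      rw [← Real.log_div (by positivity) (by positivity)]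
      refine (Real.log_le_sub_one_of_pos (by positivity)).trans ?_
      have h3 : ((⌊x⌋₊ : ℝ) + 3) / x ≤ 4 := by
        rw [div_le_iff₀ hx0]
        have := Nat.floor_le hx0.le
        linarith
      linarith
    rw [le_div_iff₀ hp, sub_mul, one_mul, mul_assoc, inv_mul_cancel₀ hp.ne']
    linarith
  · filter_upwards [eventually_ge_atTop (1 : ℝ)] with x hx
    have hx0 : 0 < x := by linarith
    rw [div_le_one (Lg_pos _)]
    unfold Lg
    apply Real.log_le_log hx0
    have := Nat.lt_floor_add_one x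
    linarith

end Pool.Agent.Results.MP_74f661_nt.SequentialModels

open Pool.Agent.Results.MP_74f661_nt.SequentialModels

/-- Let `A n` be the event that `n` belongs to a random set adapted to a filtration `ℱ`, let `Q > 0` be
a multiple of `6`, let no integer which is not coprime to `Q` be chosen, and let `c > 0`.  Let `T` be the
set of the first members of the twin pairs of the random set.  (1) If, almost surely, the conditional
probability of `A (n + 1)` given `ℱ n`, times `log n`, tends to `c` along the `n` with `n + 1` coprime to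
`Q`, then almost surely `T` is infinite and `δ(x; a|b) → 1/2` for all `a, b ∈ {1, 3}`.  (2) If moreover
the convergence to `c` has an error `o(1 / log² n)`, then almost surely `(δ(x; a|b) - 1/2) log² x` tends
to `c² / 4` when `a ≠ b` and to `- c² / 4` when `a = b`; in particular
`δ(x; a|a) < 1/2 < δ(x; a|b)` for all large `x` and `a ≠ b`. -/
theorem Pool.Agent.Results.MP_74f661_nt.SequentialModels.result
    {Ω : Type} [mΩ : MeasurableSpace Ω] (μ : Measure Ω) [IsProbabilityMeasure μ]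
    (ℱ : Filtration ℕ mΩ) (A : ℕ → Set Ω) (hA : ∀ n, MeasurableSet[ℱ n] (A n))
    (Q : ℕ) (hQ : 0 < Q) (h6 : 6 ∣ Q) (hcop : ∀ n, ¬ Nat.Coprime n Q → A n = ∅) (c : ℝ) (hc : 0 < c) :
    ((∀ᵐ ω ∂μ, Tendsto (fun n : ℕ =>
        (μ[(A (n + 1)).indicator (fun _ => (1 : ℝ)) | ℱ n]) ω * Real.log n)
        (atTop ⊓ 𝓟 {n : ℕ | Nat.Coprime (n + 1) Q}) (𝓝 c)) →
      ∀ᵐ ω ∂μ, (Twins {n | ω ∈ A n}).Infinite ∧
        ∀ a b : ℕ, (a = 1 ∨ a = 3) → (b = 1 ∨ b = 3) →
          Tendsto (fun x : ℝ => delta (Twins {n | ω ∈ A n}) a b x) atTop (𝓝 (1 / 2))) ∧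
    ((∀ᵐ ω ∂μ, Tendsto (fun n : ℕ =>
        ((μ[(A (n + 1)).indicator (fun _ => (1 : ℝ)) | ℱ n]) ω * Real.log n - c) * Real.log n ^ 2)
        (atTop ⊓ 𝓟 {n : ℕ | Nat.Coprime (n + 1) Q}) (𝓝 0)) →
      ∀ᵐ ω ∂μ, ∀ a b : ℕ, (a = 1 ∨ a = 3) → (b = 1 ∨ b = 3) →
        Tendsto (fun x : ℝ => (delta (Twins {n | ω ∈ A n}) a b x - 1 / 2) * Real.log x ^ 2) atTop
          (𝓝 (if a = b then -(c ^ 2 / 4) else c ^ 2 / 4)) ∧
        ∀ᶠ x : ℝ in atTop, if a = b then delta (Twins {n | ω ∈ A n}) a b x < 1 / 2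
          else 1 / 2 < delta (Twins {n | ω ∈ A n}) a b x) := by
  -- reduction to a modulus which is not divisible by four
  obtain ⟨k, m, hm, hk⟩ := Nat.exists_eq_two_pow_mul_odd hQ.ne'
  have h2Q : 2 ∣ Q := (by norm_num : 2 ∣ 6).trans h6
  have hk0 : 0 < k := by
    rcases Nat.eq_zero_or_pos k with h | h
    · exfalso
      rw [h, pow_zero, one_mul] at hk
      rw [hk] at h2Q
      exact (Nat.not_even_iff_odd.2 hm) (even_iff_two_dvd.2 h2Q)
    · exact h
  set Q' : ℕ := 2 * m with hQ'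
  have hcopeq : ∀ n : ℕ, Nat.Coprime n Q' ↔ Nat.Coprime n Q := by
    intro n
    rw [hk, hQ', Nat.coprime_mul_iff_right, Nat.coprime_mul_iff_right, Nat.coprime_pow_right_iff hk0]
  have h3m : 3 ∣ m := by
    have h3Q : 3 ∣ 2 ^ k * m := hk ▸ (by norm_num : 3 ∣ 6).trans h6
    exact (Nat.Coprime.pow_right k (by norm_num : Nat.Coprime 3 2)).dvd_of_dvd_mul_left h3Q
  have h6' : 6 ∣ Q' := by
    obtain ⟨j, rfl⟩ := h3m
    exact ⟨j, by rw [hQ']; ring⟩
  have h4' : ¬ 4 ∣ Q' := by
    rintro ⟨j, hj⟩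
    obtain ⟨i, rfl⟩ := hm
    omega
  have hcop' : ∀ n, ¬ Nat.Coprime n Q' → A n = ∅ := fun n hn => hcop n fun h => hn ((hcopeq n).2 h)
  have hset : {n : ℕ | Nat.Coprime (n + 1) Q} = {n : ℕ | Nat.Coprime (n + 1) Q'} := by
    ext n
    exact (hcopeq (n + 1)).symm
  have hTw : ∀ ω, Twins {n | ω ∈ A n} = Pool.Agent.U736.TW.Twins {n | ω ∈ A n} := fun ω => rfl
  rw [hset]
  constructor
  · intro hd
    have hd0 : ∀ᵐ ω ∂μ, Tendsto (fun n : ℕ => (Pool.Agent.R528.RM.dens μ ℱ A n ω * Real.log n - c) * Real.log n ^ 0)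
        (atTop ⊓ 𝓟 {n : ℕ | Nat.Coprime (n + 1) Q'}) (𝓝 0) := by
      filter_upwards [hd] with ω hω
      have h1 := hω.sub_const c
      rw [sub_self] at h1
      refine h1.congr fun n => ?_
      rw [pow_zero, mul_one]
      rfl
    filter_upwards [Pool.Agent.U736.TW.twins_law (μ := μ) (ℱ := ℱ) hA h6' h4' hcop' hc (p := 0) (by norm_num) hd0] with ω hω
    refine ⟨hω.1, fun a b ha hb => ?_⟩
    have h1 := ((hω.2 a b ha hb).1).comp (tendsto_nat_floor_atTop (α := ℝ))
    refine h1.congr' ?_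
    filter_upwards [eventually_ge_atTop (0 : ℝ)] with x hx
    rw [delta_floor _ a b hx]
    rfl
  · intro hd
    have hd2 : ∀ᵐ ω ∂μ, Tendsto (fun n : ℕ => (Pool.Agent.R528.RM.dens μ ℱ A n ω * Real.log n - c) * Real.log n ^ 2)
        (atTop ⊓ 𝓟 {n : ℕ | Nat.Coprime (n + 1) Q'}) (𝓝 0) := hd
    filter_upwards [Pool.Agent.U736.TW.twins_law (μ := μ) (ℱ := ℱ) hA h6' h4' hcop' hc (p := 2) le_rfl hd2] with ω hω a b ha hb
    have h1 := ((hω.2 a b ha hb).2 le_rfl).comp (tendsto_nat_floor_atTop (α := ℝ))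
    have h2 := h1.mul (log_ratio.pow 2)
    have h3 : -(Pool.Agent.U736.TW.sg a * Pool.Agent.U736.TW.sg b * c ^ 2) / 4 * 1 ^ 2 = if a = b then -(c ^ 2 / 4) else c ^ 2 / 4 := by
      unfold Pool.Agent.U736.TW.sg
      rcases ha with rfl | rfl <;> rcases hb with rfl | rfl <;> norm_num <;> ring
    rw [h3] at h2
    have h4 : Tendsto (fun x : ℝ => (delta (Twins {n | ω ∈ A n}) a b x - 1 / 2) * Real.log x ^ 2) atTop
        (𝓝 (if a = b then -(c ^ 2 / 4) else c ^ 2 / 4)) := by
      refine h2.congr' ?_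
      filter_upwards [eventually_ge_atTop (0 : ℝ)] with x hx
      rw [delta_floor _ a b hx, hTw]
      simp only [Function.comp]
      have := (Pool.Agent.U736.TW.Lg_pos ⌊x⌋₊).ne'
      field_simp
    refine ⟨h4, ?_⟩
    have hc2 : 0 < c ^ 2 / 4 := by positivity
    by_cases hab : a = b
    · rw [if_pos hab] at h4
      filter_upwards [h4.eventually_lt_const (show -(c ^ 2 / 4) < 0 by linarith)] with x hx
      rw [if_pos hab]
      by_contra hcon
      push Not at hcon
      have : 0 ≤ (delta (Twins {n | ω ∈ A n}) a b x - 1 / 2) * Real.log x ^ 2 :=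
        mul_nonneg (by linarith) (sq_nonneg _)
      linarith
    · rw [if_neg hab] at h4
      filter_upwards [h4.eventually_const_lt hc2] with x hx
      rw [if_neg hab]
      by_contra hcon
      push Not at hcon
      have : (delta (Twins {n | ω ∈ A n}) a b x - 1 / 2) * Real.log x ^ 2 ≤ 0 :=
        mul_nonpos_of_nonpos_of_nonneg (by linarith) (sq_nonneg _)
      linarith
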